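import Mathlib

/-!
# Subdivided multigraphs (helper file)
-/

set_option autoImplicit false

namespace Pool.Agent.H44.Dom2

open Finset

/-- Vertices of the subdivided multigraph with vertex set `W`, edge set `B` and `k b` inner
vertices on the edge `b`. -/
abbrev SV {B : Type} (W : Type) (k : B → ℕ) : Type := W ⊕ (Σ b : B, Fin (k b))

/-- Oriented adjacency. -/
def SR {W B : Type} (k : B → ℕ) (ends : B → W × W) : SV W k → SV W k → Prop
  | .inl u, .inr x => (x.2.val = 0 ∧ u = (ends x.1).1) ∨ (x.2.val + 1 = k x.1 ∧ u = (ends x.1).2)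
  | .inr x, .inr y => x.1 = y.1 ∧ x.2.val + 1 = y.2.val
  | _, _ => False

/-- The subdivided multigraph. -/
def SG {W B : Type} (k : B → ℕ) (ends : B → W × W) : SimpleGraph (SV W k) where
  Adj x y := SR k ends x y ∨ SR k ends y x
  symm := ⟨fun _ _ h => h.symm⟩
  loopless := ⟨by
    rintro (u | x) h
    · simp [SR] at h
    · simp [SR] at h⟩

variable {W B : Type} {k : B → ℕ} {ends : B → W × W}

lemma adj_ll (u v : W) : ¬ (SG k ends).Adj (.inl u) (.inl v) := by
  intro h
  rcases h with h | h <;> exact h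

lemma adj_lr (u : W) (x : Σ b : B, Fin (k b)) : (SG k ends).Adj (.inl u) (.inr x) ↔
    (x.2.val = 0 ∧ u = (ends x.1).1) ∨ (x.2.val + 1 = k x.1 ∧ u = (ends x.1).2) := by
  constructor
  · rintro (h | h)
    · exact h
    · exact h.elim
  · exact fun h => Or.inl h

lemma adj_rr (x y : Σ b : B, Fin (k b)) : (SG k ends).Adj (.inr x) (.inr y) ↔
    x.1 = y.1 ∧ (x.2.val + 1 = y.2.val ∨ y.2.val + 1 = x.2.val) := by
  constructor
  · rintro (h | h)
    · exact ⟨h.1, Or.inl h.2⟩
    · exact ⟨h.1.symm, Or.inr h.2⟩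
  · rintro ⟨h, h1 | h1⟩
    · exact Or.inl ⟨h, h1⟩
    · exact Or.inr ⟨h.symm, h1⟩

/-- The left neighbour of an inner vertex. -/
def Lf (x : Σ b : B, Fin (k b)) : SV W k → Prop
  | .inl u => x.2.val = 0 ∧ u = (ends x.1).1
  | .inr y => x.1 = y.1 ∧ y.2.val + 1 = x.2.val

/-- The right neighbour of an inner vertex. -/
def Rt (x : Σ b : B, Fin (k b)) : SV W k → Prop
  | .inl u => x.2.val + 1 = k x.1 ∧ u = (ends x.1).2
  | .inr y => x.1 = y.1 ∧ x.2.val + 1 = y.2.val

lemma adj_iff (x : Σ b : B, Fin (k b)) (z : SV W k) :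
    (SG k ends).Adj (.inr x) z ↔ Lf (ends := ends) x z ∨ Rt (ends := ends) x z := by
  rcases z with u | y
  · rw [(SG k ends).adj_comm, adj_lr]; rfl
  · rw [adj_rr]
    constructor
    · rintro ⟨h, h1 | h1⟩
      · exact Or.inr ⟨h, h1⟩
      · exact Or.inl ⟨h, h1⟩
    · rintro (⟨h, h1⟩ | ⟨h, h1⟩)
      · exact ⟨h, Or.inr h1⟩
      · exact ⟨h, Or.inl h1⟩

lemma sig_ext {x y : Σ b : B, Fin (k b)} (h : x.1 = y.1) (h2 : x.2.val = y.2.val) : x = y := by
  obtain ⟨b, i⟩ := x
  obtain ⟨b', j⟩ := y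
  simp only at h
  subst h
  simp only at h2
  have : i = j := Fin.ext h2
  rw [this]

lemma Lf_unique {x : Σ b : B, Fin (k b)} {z z' : SV W k} (h : Lf (ends := ends) x z)
    (h' : Lf (ends := ends) x z') : z = z' := by
  rcases z with u | y <;> rcases z' with u' | y'
  · rw [h.2, h'.2]
  · have := h.1; have := h'.2; omega
  · have := h.2; have := h'.1; omega
  · rw [sig_ext (h.1.symm.trans h'.1) (by have := h.2; have := h'.2; omega)]

lemma Rt_unique {x : Σ b : B, Fin (k b)} {z z' : SV W k} (h : Rt (ends := ends) x z)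
    (h' : Rt (ends := ends) x z') : z = z' := by
  rcases z with u | y <;> rcases z' with u' | y'
  · rw [h.2, h'.2]
  · have h1 := h.1
    have h2 := h'.2
    have h3 := y'.2.2
    have h4 : k x.1 = k y'.1 := congrArg k h'.1
    omega
  · have h1 := h'.1
    have h2 := h.2
    have h3 := y.2.2
    have h4 : k x.1 = k y.1 := congrArg k h.1
    omega
  · rw [sig_ext (h.1.symm.trans h'.1) (by have := h.2; have := h'.2; omega)]

/-- Every vertex of `S` has two neighbours in `S`. -/
def Core (k : B → ℕ) (ends : B → W × W) (S : Finset (SV W k)) : Prop :=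
  ∀ v ∈ S, ∃ x ∈ S, ∃ y ∈ S, x ≠ y ∧ (SG k ends).Adj v x ∧ (SG k ends).Adj v y

lemma core_sides {S : Finset (SV W k)} (hS : Core k ends S) (x : Σ b : B, Fin (k b))
    (hx : Sum.inr x ∈ S) :
    (∃ z ∈ S, Lf (ends := ends) x z) ∧ (∃ z ∈ S, Rt (ends := ends) x z) := by
  obtain ⟨z, hz, z', hz', hne, h1, h2⟩ := hS _ hx
  rw [adj_iff] at h1 h2
  rcases h1 with h1 | h1 <;> rcases h2 with h2 | h2
  · exact absurd (Lf_unique h1 h2) hne
  · exact ⟨⟨z, hz, h1⟩, ⟨z', hz', h2⟩⟩
  · exact ⟨⟨z', hz', h2⟩, ⟨z, hz, h1⟩⟩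
  · exact absurd (Rt_unique h1 h2) hne

lemma core_down {S : Finset (SV W k)} (hS : Core k ends S) (b : B) :
    ∀ (d i : ℕ) (hi : i < k b), Sum.inr ⟨b, ⟨i, hi⟩⟩ ∈ S → ∀ hd : d ≤ i,
      (Sum.inr ⟨b, ⟨i - d, by omega⟩⟩ : SV W k) ∈ S := by
  intro d
  induction d with
  | zero => intro i hi h _; simpa using h
  | succ d ih =>
    intro i hi h hd
    have h1 := ih i hi h (by omega)
    obtain ⟨⟨z, hz, hL⟩, _⟩ := core_sides hS _ h1
    rcases z with u | y
    · have := hL.1
      simp only at this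
      omega
    · have h2 := hL.2
      simp only at h2
      have h3 : y = ⟨b, ⟨i - (d + 1), by omega⟩⟩ := sig_ext hL.1.symm (by simp only; omega)
      rw [← h3]; exact hz

lemma core_up {S : Finset (SV W k)} (hS : Core k ends S) (b : B) :
    ∀ (d i : ℕ) (hi : i < k b), Sum.inr ⟨b, ⟨i, hi⟩⟩ ∈ S → ∀ hd : i + d < k b,
      (Sum.inr ⟨b, ⟨i + d, hd⟩⟩ : SV W k) ∈ S := by
  intro d
  induction d with
  | zero => intro i hi h _; simpa using h
  | succ d ih =>
    intro i hi h hd
    have h1 := ih i hi h (by omega)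
    obtain ⟨_, ⟨z, hz, hR⟩⟩ := core_sides hS _ h1
    rcases z with u | y
    · have := hR.1
      simp only at this
      omega
    · have h2 := hR.2
      simp only at h2
      have h3 : y = ⟨b, ⟨i + (d + 1), hd⟩⟩ := sig_ext hR.1.symm (by simp only; omega)
      rw [← h3]; exact hz

lemma core_all {S : Finset (SV W k)} (hS : Core k ends S) (x : Σ b : B, Fin (k b))
    (hx : Sum.inr x ∈ S) (j : Fin (k x.1)) : (Sum.inr ⟨x.1, j⟩ : SV W k) ∈ S := by
  obtain ⟨b, i⟩ := x
  have h0 := core_down hS b i.val i.val i.2 hx le_rfl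
  have h1 := core_up hS b j.val _ _ h0 (by simp)
  simpa using h1

lemma core_ends {S : Finset (SV W k)} (hS : Core k ends S) (x : Σ b : B, Fin (k b))
    (hx : Sum.inr x ∈ S) :
    (Sum.inl (ends x.1).1 : SV W k) ∈ S ∧ (Sum.inl (ends x.1).2 : SV W k) ∈ S := by
  obtain ⟨b, i⟩ := x
  have hk : 0 < k b := by have := i.2; omega
  have h0 := core_all hS ⟨b, i⟩ hx ⟨0, hk⟩
  have h1 := core_all hS ⟨b, i⟩ hx ⟨k b - 1, by simp only; omega⟩
  obtain ⟨⟨z, hz, hL⟩, _⟩ := core_sides hS _ h0
  obtain ⟨_, ⟨z', hz', hR⟩⟩ := core_sides hS _ h1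
  constructor
  · rcases z with u | y
    · rw [← hL.2]; exact hz
    · have := hL.2
      simp only at this
      omega
  · rcases z' with u | y
    · rw [← hR.2]; exact hz'
    · have h2 := hR.2
      have h3 := y.2.2
      have h4 : k b = k y.1 := congrArg k hR.1
      simp only at h2
      omega

/-- The edges met by a core. -/
noncomputable def coreE [Fintype B] [DecidableEq B] [DecidableEq W] (S : Finset (SV W k)) :
    Finset B := by
  classical
  exact univ.filter fun b => ∃ i : Fin (k b), (Sum.inr ⟨b, i⟩ : SV W k) ∈ S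

/-- The branch vertices in a core. -/
noncomputable def coreV [Fintype W] [DecidableEq W] (S : Finset (SV W k)) :
    Finset W := by
  classical
  exact univ.filter fun u => (Sum.inl u : SV W k) ∈ S

lemma mem_coreE [Fintype B] [DecidableEq B] [DecidableEq W] {S : Finset (SV W k)} {b : B} :
    b ∈ coreE S ↔ ∃ i : Fin (k b), (Sum.inr ⟨b, i⟩ : SV W k) ∈ S := by
  simp [coreE]

lemma mem_coreV [Fintype W] [DecidableEq W] {S : Finset (SV W k)} {u : W} :
    u ∈ coreV S ↔ (Sum.inl u : SV W k) ∈ S := by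
  simp [coreV]

/-- A core has at most as many branch vertices as edges. -/
theorem card_coreV_le [Fintype B] [DecidableEq B] [Fintype W] [DecidableEq W]
    {S : Finset (SV W k)} (hS : Core k ends S) : (coreV S).card ≤ (coreE S).card := by
  classical
  -- incidences
  set T : Finset (W × (Σ b : B, Fin (k b))) := (coreV S ×ˢ univ).filter fun p =>
    Sum.inr p.2 ∈ S ∧ (SG k ends).Adj (.inl p.1) (.inr p.2) with hT
  have h1 : 2 * (coreV S).card ≤ T.card := by
    have h2 : T.card = ∑ u ∈ coreV S, (univ.filter fun x : Σ b : B, Fin (k b) =>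
        Sum.inr x ∈ S ∧ (SG k ends).Adj (.inl u) (.inr x)).card := by
      rw [hT, card_filter, sum_product]
      apply sum_congr rfl
      intro u _
      rw [card_filter]
    rw [h2, mul_comm, ← smul_eq_mul]
    apply card_nsmul_le_sum
    intro u hu
    rw [mem_coreV] at hu
    obtain ⟨z, hz, z', hz', hne, ha, ha'⟩ := hS _ hu
    rcases z with v | x
    · exact absurd ha (adj_ll _ _)
    rcases z' with v | x'
    · exact absurd ha' (adj_ll _ _)
    have h3 : ({x, x'} : Finset (Σ b : B, Fin (k b))) ⊆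
        univ.filter fun x : Σ b : B, Fin (k b) =>
          Sum.inr x ∈ S ∧ (SG k ends).Adj (.inl u) (.inr x) := by
      intro y hy
      rw [mem_insert, mem_singleton] at hy
      rw [mem_filter]
      rcases hy with rfl | rfl
      · exact ⟨mem_univ _, hz, ha⟩
      · exact ⟨mem_univ _, hz', ha'⟩
    have h4 : ({x, x'} : Finset (Σ b : B, Fin (k b))).card = 2 :=
      card_pair (fun h => hne (by rw [h]))
    rw [← h4]
    exact card_le_card h3
  have h2 : T.card ≤ ((coreE S) ×ˢ (univ : Finset Bool)).card := by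
    refine card_le_card_of_injOn
      (fun p => (p.2.1, decide ¬(p.2.2.val = 0 ∧ p.1 = (ends p.2.1).1))) ?_ ?_
    · intro p hp
      have hp := mem_coe.1 hp
      rw [hT, mem_filter] at hp
      refine mem_coe.2 (mem_product.2 ⟨mem_coreE.2 ⟨p.2.2, hp.2.1⟩, mem_univ _⟩)
    · intro p hp q hq hpq
      have hp := mem_coe.1 hp
      have hq := mem_coe.1 hq
      rw [hT, mem_filter] at hp hq
      have ha := (adj_lr _ _).1 hp.2.2
      have hb := (adj_lr _ _).1 hq.2.2
      simp only [Prod.mk.injEq, decide_eq_decide, not_iff_not] at hpq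
      obtain ⟨h3, h4⟩ := hpq
      have h5 : k p.2.1 = k q.2.1 := congrArg k h3
      by_cases hc : p.2.2.val = 0 ∧ p.1 = (ends p.2.1).1
      · have hd := h4.1 hc
        refine Prod.ext ?_ (sig_ext h3 (by omega))
        rw [hc.2, hd.2, h3]
      · have hd : ¬(q.2.2.val = 0 ∧ q.1 = (ends q.2.1).1) := fun h => hc (h4.2 h)
        have ha := ha.resolve_left hc
        have hb := hb.resolve_left hd
        refine Prod.ext ?_ (sig_ext h3 (by omega))
        rw [ha.2, hb.2, h3]
  rw [card_product, card_univ, Fintype.card_bool] at h2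
  omega

lemma k_le_card {S : Finset (SV W k)} (hS : Core k ends S) [Fintype B] [DecidableEq B]
    [DecidableEq W] {b : B} (hb : b ∈ coreE S) : k b ≤ S.card := by
  classical
  obtain ⟨i, hi⟩ := mem_coreE.1 hb
  have h := core_all hS ⟨b, i⟩ hi
  have h2 : (univ : Finset (Fin (k b))).card ≤ S.card := by
    refine card_le_card_of_injOn (fun j => (Sum.inr ⟨b, j⟩ : SV W k)) (fun j _ => h j) ?_
    intro j _ j' _ hj
    simpa using hj
  simpa using h2

lemma card_coreE_le [Fintype B] [DecidableEq B] [DecidableEq W] (S : Finset (SV W k)) :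
    (coreE S).card ≤ S.card := by
  classical
  have h1 : coreE S ⊆ S.toRight.image Sigma.fst := by
    intro b hb
    obtain ⟨i, hi⟩ := mem_coreE.1 hb
    rw [mem_image]
    exact ⟨⟨b, i⟩, mem_toRight.2 hi, rfl⟩
  calc (coreE S).card ≤ (S.toRight.image Sigma.fst).card := card_le_card h1
    _ ≤ S.toRight.card := card_image_le
    _ ≤ S.card := card_toRight_le

/-- The vertices of a cycle form a core. -/
theorem cycle_core [DecidableEq (SV W k)] {a : SV W k} (c : (SG k ends).Walk a a)
    (hc : c.IsCycle) : Core k ends c.support.toFinset := by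
  intro v hv
  rw [List.mem_toFinset] at hv
  have h2 := hc.ncard_neighborSet_toSubgraph_eq_two hv
  rw [Set.ncard_eq_two] at h2
  obtain ⟨x, y, hne, hxy⟩ := h2
  have hx : x ∈ c.toSubgraph.neighborSet v := by rw [hxy]; simp
  have hy : y ∈ c.toSubgraph.neighborSet v := by rw [hxy]; simp
  have hx1 : c.toSubgraph.Adj v x := hx
  have hy1 : c.toSubgraph.Adj v y := hy
  refine ⟨x, ?_, y, ?_, hne, hx1.adj_sub, hy1.adj_sub⟩
  · rw [List.mem_toFinset, ← SimpleGraph.Walk.mem_verts_toSubgraph]
    exact hx1.snd_mem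
  · rw [List.mem_toFinset, ← SimpleGraph.Walk.mem_verts_toSubgraph]
    exact hy1.snd_mem

lemma cycle_card [DecidableEq (SV W k)] {a : SV W k} (c : (SG k ends).Walk a a)
    (hc : c.IsCycle) : c.support.toFinset.card ≤ c.length := by
  have h1 : c.support = a :: c.support.tail := (SimpleGraph.Walk.cons_tail_support c).symm
  have h2 : a ∈ c.support.tail := SimpleGraph.Walk.end_mem_tail_support (fun h => hc.not_nil h)
  have h3 : c.support.toFinset = c.support.tail.toFinset := by
    conv_lhs => rw [h1]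
    rw [List.toFinset_cons, insert_eq_of_mem (List.mem_toFinset.2 h2)]
  rw [h3]
  refine (List.toFinset_card_le _).trans ?_
  rw [List.length_tail, SimpleGraph.Walk.length_support]
  simp

end Pool.Agent.H44.Dom2
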