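import Pool.Agent.H44.Dom2.Exists
import Pool.Agent.H44.Dom2.Subdiv

/-!
# The large-girth graphs of minimum degree two (helper file)
-/

set_option autoImplicit false

namespace Pool.Agent.H44.Dom2

open Finset

/-- Number of inner vertices on each edge. -/
def kk {N m : ℕ} (g : ℕ) (e : Fin m × Bool → Fin N × Fin N) : (Fin m × Bool) ⊕ Fin N → ℕ
  | .inl b => if b ∈ BadE g e then g else if b.2 then 2 else 1
  | .inr _ => g

/-- The ends of each edge. -/
def en {N m : ℕ} (e : Fin m × Bool → Fin N × Fin N) : (Fin m × Bool) ⊕ Fin N → Fin N × Fin N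
  | .inl b => e b
  | .inr w => (w, w)

theorem girth_ge {N m g : ℕ} (e : Fin m × Bool → Fin N × Fin N) (hN : g ≤ N) :
    (g : ℕ∞) ≤ (SG (kk g e) (en e)).egirth := by
  classical
  rw [SimpleGraph.le_egirth]
  intro a c hc
  by_contra hcon
  push Not at hcon
  have hcl : c.length < g := by exact_mod_cast hcon
  set S := c.support.toFinset with hS
  have hcore := cycle_core c hc
  rw [← hS] at hcore
  have hcard := cycle_card c hc
  rw [← hS] at hcard
  have ha : a ∈ S := by rw [hS, List.mem_toFinset]; exact c.start_mem_support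
  -- all edges met are good
  have hgood : ∀ b ∈ coreE S, ∃ b' : Fin m × Bool, b = .inl b' ∧ b' ∉ BadE g e := by
    intro b hb
    have h1 := k_le_card hcore hb
    rcases b with b' | w
    · refine ⟨b', rfl, fun h => ?_⟩
      have h2 : kk g e (.inl b') = g := by simp [kk, h]
      omega
    · have h2 : kk g e (.inr w) = g := rfl
      omega
  have hne : (coreE S).Nonempty := by
    rcases a with u | ⟨b, i⟩
    · obtain ⟨x, hx, y, hy, -, h1, -⟩ := hcore _ ha
      rcases x with v | ⟨b, i⟩
      · exact absurd h1 (adj_ll _ _)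
      · exact ⟨b, mem_coreE.2 ⟨i, hx⟩⟩
    · exact ⟨b, mem_coreE.2 ⟨i, ha⟩⟩
  set F := (coreE S).toLeft with hF
  have hFc : F.card = (coreE S).card := by
    have h1 : (coreE S).toRight = ∅ := by
      rw [eq_empty_iff_forall_notMem]
      intro w hw
      rw [mem_toRight] at hw
      obtain ⟨b', hb', -⟩ := hgood _ hw
      cases hb'
    have h2 := card_toLeft_add_card_toRight (u := coreE S)
    rw [h1, card_empty, add_zero] at h2
    exact h2
  have hFS := card_coreE_le S
  have hVE := card_coreV_le hcore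
  have hFle : F.card ≤ (univ : Finset (Fin N)).card := by
    rw [card_univ, Fintype.card_fin]; omega
  obtain ⟨U, hU1, -, hU2⟩ := exists_subsuperset_card_eq (subset_univ (coreV S))
    (by omega : (coreV S).card ≤ F.card) hFle
  have hpos := card_pos.2 hne
  have hconf : (F, U) ∈ Conf g e := by
    unfold Conf
    rw [mem_filter]
    refine ⟨mem_univ _, by simp only; omega, by simp only; omega, hU2, ?_⟩
    intro b hb
    simp only at hb
    rw [hF, mem_toLeft] at hb
    obtain ⟨i, hi⟩ := mem_coreE.1 hb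
    have h1 := core_ends hcore _ hi
    exact ⟨hU1 (mem_coreV.2 h1.1), hU1 (mem_coreV.2 h1.2)⟩
  obtain ⟨b, hb⟩ := hne
  obtain ⟨b', rfl, hb'⟩ := hgood b hb
  apply hb'
  unfold BadE
  rw [mem_biUnion]
  exact ⟨(F, U), hconf, by rw [hF, mem_toLeft]; exact hb⟩

lemma good_ne {N m g : ℕ} (e : Fin m × Bool → Fin N × Fin N) (hg : 2 ≤ g) (b : Fin m × Bool)
    (hb : b ∉ BadE g e) : (e b).1 ≠ (e b).2 := by
  intro h
  apply hb
  unfold BadE
  rw [mem_biUnion]
  refine ⟨({b}, {(e b).1}), ?_, by simp⟩
  unfold Conf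
  rw [mem_filter]
  refine ⟨mem_univ _, by simp, by simp only [card_singleton]; omega, by simp, ?_⟩
  intro b' hb'
  simp only [mem_singleton] at hb'
  subst hb'
  simp [h]

lemma exists_Lf {W B : Type} {k : B → ℕ} {ends : B → W × W} (x : Σ b : B, Fin (k b)) :
    ∃ z : SV W k, Lf (ends := ends) x z := by
  obtain ⟨b, i⟩ := x
  by_cases h : i.val = 0
  · exact ⟨.inl (ends b).1, h, rfl⟩
  · exact ⟨.inr ⟨b, ⟨i.val - 1, by omega⟩⟩, rfl, by simp only; omega⟩

lemma exists_Rt {W B : Type} {k : B → ℕ} {ends : B → W × W} (x : Σ b : B, Fin (k b)) :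
    ∃ z : SV W k, Rt (ends := ends) x z := by
  obtain ⟨b, i⟩ := x
  by_cases h : i.val + 1 = k b
  · exact ⟨.inl (ends b).2, h, rfl⟩
  · exact ⟨.inr ⟨b, ⟨i.val + 1, by omega⟩⟩, rfl, rfl⟩

lemma Lf_ne_Rt {W B : Type} {k : B → ℕ} {ends : B → W × W}
    (hends : ∀ b, k b = 1 → (ends b).1 ≠ (ends b).2) (x : Σ b : B, Fin (k b)) (z z' : SV W k)
    (h : Lf (ends := ends) x z) (h' : Rt (ends := ends) x z') : z ≠ z' := by
  rintro rfl
  rcases z with u | y
  · have h1 := h.1
    have h2 := h'.1
    exact hends x.1 (by omega) (h.2.symm.trans h'.2)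
  · have h1 := h.2
    have h2 := h'.2
    omega

open Classical in
theorem minDeg {N m g : ℕ} (e : Fin m × Bool → Fin N × Fin N) (hg : 2 ≤ g) (hN : 0 < N) :
    (SG (kk g e) (en e)).minDegree = 2 := by
  have hends : ∀ b, kk g e b = 1 → (en e b).1 ≠ (en e b).2 := by
    intro b hb
    rcases b with b | w
    · by_cases h : b ∈ BadE g e
      · simp [kk, h] at hb
        omega
      · exact good_ne e hg b h
    · have : kk g e (.inr w) = g := rfl
      omega
  have hinner : ∀ x : (Σ b : (Fin m × Bool) ⊕ Fin N, Fin (kk g e b)),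
      (SG (kk g e) (en e)).degree (.inr x) = 2 := by
    intro x
    obtain ⟨z, hz⟩ := exists_Lf (ends := en e) x
    obtain ⟨z', hz'⟩ := exists_Rt (ends := en e) x
    have hne := Lf_ne_Rt hends x z z' hz hz'
    rw [← SimpleGraph.card_neighborFinset_eq_degree, ← card_pair hne]
    congr 1
    ext y
    rw [SimpleGraph.mem_neighborFinset, adj_iff, mem_insert, mem_singleton]
    constructor
    · rintro (h | h)
      · exact Or.inl (Lf_unique h hz)
      · exact Or.inr (Rt_unique h hz')
    · rintro (rfl | rfl)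
      · exact Or.inl hz
      · exact Or.inr hz'
  have hbranch : ∀ w : Fin N, 2 ≤ (SG (kk g e) (en e)).degree (.inl w) := by
    intro w
    have hk : kk g e (.inr w) = g := rfl
    set x : SV (Fin N) (kk g e) := .inr ⟨.inr w, ⟨0, by omega⟩⟩ with hx
    set y : SV (Fin N) (kk g e) := .inr ⟨.inr w, ⟨g - 1, by omega⟩⟩ with hy
    have hne : x ≠ y := by
      intro h
      rw [hx, hy] at h
      simp at h
      omega
    rw [← SimpleGraph.card_neighborFinset_eq_degree, ← card_pair hne]
    apply card_le_card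
    intro z hz
    rw [mem_insert, mem_singleton] at hz
    rw [SimpleGraph.mem_neighborFinset]
    rcases hz with rfl | rfl
    · rw [hx, adj_lr]
      exact Or.inl ⟨rfl, rfl⟩
    · rw [hy, adj_lr]
      exact Or.inr ⟨by simp only; omega, rfl⟩
  have hne : Nonempty (SV (Fin N) (kk g e)) := ⟨.inl ⟨0, hN⟩⟩
  apply le_antisymm
  · have hk : kk g e (.inr ⟨0, hN⟩) = g := rfl
    have h1 := hinner ⟨.inr ⟨0, hN⟩, ⟨0, by omega⟩⟩
    rw [← h1]
    exact SimpleGraph.minDegree_le_degree _ _
  · apply SimpleGraph.le_minDegree_of_forall_le_degree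
    intro v
    rcases v with w | x
    · exact hbranch w
    · rw [hinner x]

end Pool.Agent.H44.Dom2
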