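import Mathlib

/-!
# Quasi-random edge lists with few short dense configurations (helper file)
-/

set_option autoImplicit false

namespace Pool.Agent.H44.Dom2

open Finset

lemma sum_prod {ι P : Type*} [Fintype ι] [DecidableEq ι] [Fintype P] (φ : ι → P → ℝ) :
    ∑ e : ι → P, ∏ b, φ b (e b) = ∏ b, ∑ x, φ b x := by
  classical
  rw [Finset.prod_univ_sum, Fintype.piFinset_univ]

/-- The number of edges of type `τ` in `Q`. -/
def cntE {N m : ℕ} (e : Fin m × Bool → Fin N × Fin N) (τ : Bool) (Q : Finset (Fin N × Fin N)) :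
    ℕ := (univ.filter fun i : Fin m => e (i, τ) ∈ Q).card

lemma cntE_eq {N m : ℕ} (e : Fin m × Bool → Fin N × Fin N) (τ : Bool)
    (Q : Finset (Fin N × Fin N)) :
    (cntE e τ Q : ℝ) = ∑ i : Fin m, if e (i, τ) ∈ Q then (1 : ℝ) else 0 := by
  unfold cntE
  rw [card_filter]
  push_cast
  rfl

/-- One factor of the exponential moment. -/
lemma one_factor {N : ℕ} (hN : 0 < N) (Q : Finset (Fin N × Fin N)) (l : ℝ) (hl : |l| ≤ 1) :
    ∑ x : Fin N × Fin N, Real.exp (l * ((if x ∈ Q then (1 : ℝ) else 0) - Q.card / (N : ℝ) ^ 2)) ≤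
      (N : ℝ) ^ 2 * Real.exp (l ^ 2 / 4) := by
  have hNR : (0 : ℝ) < N := by exact_mod_cast hN
  set p : ℝ := Q.card / (N : ℝ) ^ 2 with hp
  have hp0 : 0 ≤ p := by positivity
  have hQ : (Q.card : ℝ) ≤ (N : ℝ) ^ 2 := by
    have := card_le_univ Q
    rw [Fintype.card_prod, Fintype.card_fin] at this
    have h2 : (Q.card : ℝ) ≤ ((N * N : ℕ) : ℝ) := by exact_mod_cast this
    push_cast at h2
    linarith [sq (N : ℝ)]
  have hp1 : p ≤ 1 := by rw [hp, div_le_one (by positivity)]; exact hQ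
  have hb : ∀ x : Fin N × Fin N,
      Real.exp (l * ((if x ∈ Q then (1 : ℝ) else 0) - p)) ≤
        1 + l * ((if x ∈ Q then (1 : ℝ) else 0) - p) +
          l ^ 2 * ((if x ∈ Q then (1 : ℝ) else 0) - p) ^ 2 := by
    intro x
    have hd : |(if x ∈ Q then (1 : ℝ) else 0) - p| ≤ 1 := by
      split_ifs
      · exact abs_le.2 ⟨by linarith, by linarith⟩
      · exact abs_le.2 ⟨by linarith, by linarith⟩
    have h1 : |l * ((if x ∈ Q then (1 : ℝ) else 0) - p)| ≤ 1 := by
      rw [abs_mul]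
      calc |l| * |(if x ∈ Q then (1 : ℝ) else 0) - p| ≤ 1 * 1 :=
            mul_le_mul hl hd (abs_nonneg _) zero_le_one
        _ = 1 := one_mul 1
    have h3 := (abs_le.1 (Real.abs_exp_sub_one_sub_id_le h1)).2
    rw [mul_pow] at h3
    linarith
  have hsum1 : ∑ x : Fin N × Fin N, (if x ∈ Q then (1 : ℝ) else 0) = Q.card := by
    rw [← sum_filter, sum_const, nsmul_eq_mul, mul_one]
    congr 2
    ext x; simp
  have hcard : ((univ : Finset (Fin N × Fin N)).card : ℝ) = (N : ℝ) ^ 2 := by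
    rw [card_univ, Fintype.card_prod, Fintype.card_fin]; push_cast; ring
  have hsq : ∀ x : Fin N × Fin N, ((if x ∈ Q then (1 : ℝ) else 0) - p) ^ 2 =
      (1 - 2 * p) * (if x ∈ Q then (1 : ℝ) else 0) + p ^ 2 := by
    intro x
    split_ifs <;> ring
  calc _ ≤ ∑ x : Fin N × Fin N, (1 + l * ((if x ∈ Q then (1 : ℝ) else 0) - p) +
          l ^ 2 * ((if x ∈ Q then (1 : ℝ) else 0) - p) ^ 2) := sum_le_sum fun x _ => hb x
    _ = (N : ℝ) ^ 2 * (1 + l ^ 2 * (p * (1 - p))) := by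
        simp_rw [hsq]
        simp only [sum_add_distrib, ← mul_sum, sum_sub_distrib, sum_const, hsum1, nsmul_eq_mul,
          hcard, mul_one]
        have : (Q.card : ℝ) = p * (N : ℝ) ^ 2 := by rw [hp]; field_simp
        rw [this]
        ring
    _ ≤ (N : ℝ) ^ 2 * Real.exp (l ^ 2 / 4) := by
        apply mul_le_mul_of_nonneg_left _ (by positivity)
        have h1 : p * (1 - p) ≤ 1 / 4 := by nlinarith [sq_nonneg (p - 1 / 2)]
        have h2 : l ^ 2 * (p * (1 - p)) ≤ l ^ 2 / 4 := by nlinarith [sq_nonneg l]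
        have h3 := Real.add_one_le_exp (l ^ 2 / 4)
        linarith

lemma chern {N m : ℕ} (hN : 0 < N) (τ : Bool) (Q : Finset (Fin N × Fin N)) (l : ℝ)
    (hl : |l| ≤ 1) :
    ∑ e : Fin m × Bool → Fin N × Fin N,
      Real.exp (l * ((cntE e τ Q : ℝ) - Q.card / (N : ℝ) ^ 2 * m)) ≤
      ((N : ℝ) ^ 2) ^ (2 * m) * Real.exp (l ^ 2 / 4 * m) := by
  have h1 : ∀ e : Fin m × Bool → Fin N × Fin N,
      Real.exp (l * ((cntE e τ Q : ℝ) - Q.card / (N : ℝ) ^ 2 * m)) =
      ∏ b : Fin m × Bool, (if b.2 = τ then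
        Real.exp (l * ((if e b ∈ Q then (1 : ℝ) else 0) - Q.card / (N : ℝ) ^ 2)) else 1) := by
    intro e
    rw [Fintype.prod_prod_type]
    have : ∀ i : Fin m, (∏ y : Bool, if (i, y).2 = τ then
        Real.exp (l * ((if e (i, y) ∈ Q then (1 : ℝ) else 0) - Q.card / (N : ℝ) ^ 2)) else 1) =
        Real.exp (l * ((if e (i, τ) ∈ Q then (1 : ℝ) else 0) - Q.card / (N : ℝ) ^ 2)) := by
      intro i
      rw [Fintype.prod_bool]
      cases τ <;> simp
    simp_rw [this]
    rw [← Real.exp_sum, ← mul_sum, sum_sub_distrib, cntE_eq, sum_const, card_univ,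
      Fintype.card_fin, nsmul_eq_mul]
    congr 3
    ring
  simp_rw [h1]
  rw [sum_prod (fun (b : Fin m × Bool) (x : Fin N × Fin N) => if b.2 = τ then
        Real.exp (l * ((if x ∈ Q then (1 : ℝ) else 0) - Q.card / (N : ℝ) ^ 2)) else 1),
    Fintype.prod_prod_type]
  have h2 : ∀ i : Fin m, (∏ y : Bool, ∑ x : Fin N × Fin N, if (i, y).2 = τ then
      Real.exp (l * ((if x ∈ Q then (1 : ℝ) else 0) - Q.card / (N : ℝ) ^ 2)) else 1) ≤
      ((N : ℝ) ^ 2) ^ 2 * Real.exp (l ^ 2 / 4) := by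
    intro i
    have h3 := one_factor hN Q l hl
    have hc : ∑ x : Fin N × Fin N, (1 : ℝ) = (N : ℝ) ^ 2 := by
      rw [sum_const, card_univ, Fintype.card_prod, Fintype.card_fin]; simp; ring
    rw [Fintype.prod_bool]
    have hNN : (0 : ℝ) ≤ (N : ℝ) ^ 2 := by positivity
    cases τ
    · simp only [Bool.true_eq_false, if_false, if_true, hc]
      calc _ ≤ (N : ℝ) ^ 2 * ((N : ℝ) ^ 2 * Real.exp (l ^ 2 / 4)) :=
            mul_le_mul_of_nonneg_left h3 hNN
        _ = _ := by ring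
    · simp only [Bool.false_eq_true, if_false, if_true, hc]
      calc _ ≤ ((N : ℝ) ^ 2 * Real.exp (l ^ 2 / 4)) * (N : ℝ) ^ 2 :=
            mul_le_mul_of_nonneg_right h3 hNN
        _ = _ := by ring
  calc _ ≤ ∏ i : Fin m, (((N : ℝ) ^ 2) ^ 2 * Real.exp (l ^ 2 / 4)) := by
        apply prod_le_prod
        · intro i _
          apply prod_nonneg
          intro y _
          apply sum_nonneg
          intro x _
          split_ifs <;> positivity
        · intro i _
          exact h2 i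
    _ = _ := by
        rw [prod_const, card_univ, Fintype.card_fin, mul_pow, ← Real.exp_nat_mul, ← pow_mul]
        congr 2
        ring

/-- The tail bound, `σ = 1` or `σ = -1`. -/
lemma tail {N m : ℕ} (hN : 0 < N) (τ : Bool) (Q : Finset (Fin N × Fin N)) (ε σ : ℝ)
    (hε : 0 < ε) (hε' : ε ≤ 1 / 2) (hσ : |σ| = 1) :
    ∑ e : Fin m × Bool → Fin N × Fin N,
      (if ε * m < σ * ((cntE e τ Q : ℝ) - Q.card / (N : ℝ) ^ 2 * m) then (1 : ℝ) else 0) ≤
      ((N : ℝ) ^ 2) ^ (2 * m) * Real.exp (-(ε ^ 2 * m)) := by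
  have hl : |2 * ε * σ| ≤ 1 := by
    rw [abs_mul, hσ, mul_one, abs_of_pos (by linarith)]
    linarith
  have hσ2 : σ ^ 2 = 1 := by rw [← sq_abs, hσ, one_pow]
  have h1 := chern (m := m) hN τ Q (2 * ε * σ) hl
  calc _ ≤ ∑ e : Fin m × Bool → Fin N × Fin N, Real.exp (-(2 * ε ^ 2 * m)) *
        Real.exp (2 * ε * σ * ((cntE e τ Q : ℝ) - Q.card / (N : ℝ) ^ 2 * m)) := by
        apply sum_le_sum
        intro e _
        split_ifs with h
        · rw [← Real.exp_add]
          apply Real.one_le_exp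
          nlinarith [mul_lt_mul_of_pos_left h hε]
        · positivity
    _ = Real.exp (-(2 * ε ^ 2 * m)) * ∑ e : Fin m × Bool → Fin N × Fin N,
        Real.exp (2 * ε * σ * ((cntE e τ Q : ℝ) - Q.card / (N : ℝ) ^ 2 * m)) := by
        rw [mul_sum]
    _ ≤ Real.exp (-(2 * ε ^ 2 * m)) * (((N : ℝ) ^ 2) ^ (2 * m) *
        Real.exp ((2 * ε * σ) ^ 2 / 4 * m)) := mul_le_mul_of_nonneg_left h1 (Real.exp_pos _).le
    _ = _ := by
        rw [mul_left_comm, ← Real.exp_add]
        congr 2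
        rw [mul_pow, hσ2]
        ring

/-- Short dense configurations: `l < g` edges inside a set of `l` vertices. -/
def Conf {N m : ℕ} (g : ℕ) (e : Fin m × Bool → Fin N × Fin N) :
    Finset (Finset (Fin m × Bool) × Finset (Fin N)) :=
  univ.filter fun x => 1 ≤ x.1.card ∧ x.1.card < g ∧ x.2.card = x.1.card ∧
    ∀ b ∈ x.1, (e b).1 ∈ x.2 ∧ (e b).2 ∈ x.2

lemma sum_conf_aux {N m : ℕ} (F : Finset (Fin m × Bool)) (U : Finset (Fin N)) :
    ∑ e : Fin m × Bool → Fin N × Fin N,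
      (if ∀ b ∈ F, (e b).1 ∈ U ∧ (e b).2 ∈ U then (1 : ℝ) else 0) =
      ((U.card : ℝ) ^ 2) ^ F.card * ((N : ℝ) ^ 2) ^ (2 * m - F.card) := by
  have h1 : ∀ e : Fin m × Bool → Fin N × Fin N,
      (if ∀ b ∈ F, (e b).1 ∈ U ∧ (e b).2 ∈ U then (1 : ℝ) else 0) =
      ∏ b, (if b ∈ F then (if (e b).1 ∈ U ∧ (e b).2 ∈ U then (1 : ℝ) else 0) else 1) := by
    intro e
    rw [prod_ite_mem_eq, prod_ite_zero]
    simp
  simp_rw [h1]
  rw [sum_prod (fun (b : Fin m × Bool) (x : Fin N × Fin N) =>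
    if b ∈ F then (if x.1 ∈ U ∧ x.2 ∈ U then (1 : ℝ) else 0) else 1)]
  have h2 : ∀ b : Fin m × Bool, (∑ x : Fin N × Fin N,
      if b ∈ F then (if x.1 ∈ U ∧ x.2 ∈ U then (1 : ℝ) else 0) else 1) =
      if b ∈ F then (U.card : ℝ) ^ 2 else (N : ℝ) ^ 2 := by
    intro b
    split_ifs
    · rw [← sum_filter, sum_const, nsmul_eq_mul, mul_one]
      have : (univ.filter fun x : Fin N × Fin N => x.1 ∈ U ∧ x.2 ∈ U) = U ×ˢ U := by
        ext x; simp
      rw [this, card_product]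
      push_cast; ring
    · rw [sum_const, card_univ, Fintype.card_prod, Fintype.card_fin]; simp; ring
  simp_rw [h2]
  rw [prod_ite, prod_const, prod_const]
  congr 2
  · congr 1; ext b; simp
  · have h3 := Finset.card_filter_add_card_filter_not (s := (univ : Finset (Fin m × Bool)))
      (fun b => b ∈ F)
    have h4 : (univ.filter fun b : Fin m × Bool => b ∈ F) = F := by ext; simp
    rw [h4, card_univ, Fintype.card_prod, Fintype.card_fin, Fintype.card_bool] at h3
    omega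

end Pool.Agent.H44.Dom2
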